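import Pool.Agent.Y72.Ko.Defs
import Pool.Agent.H97R3.PLm

/-!
# Statements on piecewise smooth homeomorphisms
-/

set_option autoImplicit false

namespace Pool.Agent.Y72.Ko

open Finset

/-- `f` is piecewise twice continuously differentiable: there is a finite set `B` such that on every
interval `[x,y]` with no point of `B` strictly between `x` and `y`, the function `f` is the
restriction of a `C²` function with positive derivative on `[x,y]`. -/
def PC2 (f : unitInterval → unitInterval) : Prop :=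
  ∃ B : Set unitInterval, B.Finite ∧ ∀ x y : unitInterval, x ≤ y →
    (∀ t ∈ B, ¬ (x < t ∧ t < y)) →
    ∃ F : ℝ → ℝ, ContDiff ℝ 2 F ∧ (∀ u : ℝ, (x : ℝ) ≤ u → u ≤ y → 0 < deriv F u) ∧
      ∀ z : unitInterval, x ≤ z → z ≤ y → (f z : ℝ) = F z

/-- local and global bounds imply class `P` -/
def S_BND : Prop :=
  ∀ (f : unitInterval ≃o unitInterval) (B : Set unitInterval) (L K : ℝ), B.Finite →
    (∀ a b x y z w : unitInterval, (∀ t ∈ B, ¬ (a < t ∧ t < b)) →
      a ≤ x → x < y → y ≤ b → a ≤ z → z < w → w ≤ b →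
      |ls f x y - ls f z w| ≤ L * ((b : ℝ) - a)) →
    (∀ x y : unitInterval, x < y → |ls f x y| ≤ K) → IsP f

/-- piecewise `C²` homeomorphisms satisfy the local bounds -/
def S_LOC : Prop :=
  ∀ (f : unitInterval ≃o unitInterval) (B : Set unitInterval), B.Finite →
    (∀ x y : unitInterval, x ≤ y → (∀ t ∈ B, ¬ (x < t ∧ t < y)) →
      ∃ F : ℝ → ℝ, ContDiff ℝ 2 F ∧ (∀ u : ℝ, (x : ℝ) ≤ u → u ≤ y → 0 < deriv F u) ∧
        ∀ z : unitInterval, x ≤ z → z ≤ y → (f z : ℝ) = F z) →
    ∃ L K : ℝ, (∀ a b x y z w : unitInterval, (∀ t ∈ B, ¬ (a < t ∧ t < b)) →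
      a ≤ x → x < y → y ≤ b → a ≤ z → z < w → w ≤ b →
      |ls f x y - ls f z w| ≤ L * ((b : ℝ) - a)) ∧
      (∀ x y : unitInterval, (∀ t ∈ B, ¬ (x < t ∧ t < y)) → x < y → |ls f x y| ≤ K)

/-- a bound for the difference quotients on intervals without points of `B` is a global bound -/
def S_GLO : Prop :=
  ∀ (f : unitInterval ≃o unitInterval) (B : Set unitInterval) (K : ℝ), B.Finite →
    (∀ x y : unitInterval, (∀ t ∈ B, ¬ (x < t ∧ t < y)) → x < y → |ls f x y| ≤ K) →
    ∀ x y : unitInterval, x < y → |ls f x y| ≤ K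

end Pool.Agent.Y72.Ko
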