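import Mathlib

/-!
# Increasing homeomorphisms of `[0,1]` of class `P`

An increasing homeomorphism of `[0,1]` is of class `P` if the logarithm of its difference quotients
has bounded variation. Such homeomorphisms form a group.
-/

set_option autoImplicit false

namespace Pool.Agent.Y72.Ko

open Finset

/-- the logarithm of the difference quotient `(f y - f x) / (y - x)` -/
noncomputable def ls (f : unitInterval ≃o unitInterval) (x y : unitInterval) : ℝ :=
  Real.log (((f y : ℝ) - f x) / ((y : ℝ) - x))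

/-- `f` is of class `P`: there is a bound for all sums of the differences
`|log ((f y_i - f x_i) / (y_i - x_i)) - log ((f w_i - f z_i) / (w_i - z_i))|`, where `[x_i, y_i]` and
`[z_i, w_i]` are subintervals of intervals `[a_i, b_i]` which do not overlap. -/
def IsP (f : unitInterval ≃o unitInterval) : Prop :=
  ∃ V : ℝ, ∀ (s : Finset ℕ) (a b x y z w : ℕ → unitInterval),
    (∀ i ∈ s, ∀ j ∈ s, i ≠ j → b i ≤ a j ∨ b j ≤ a i) →
    (∀ i ∈ s, a i ≤ x i ∧ x i < y i ∧ y i ≤ b i ∧ a i ≤ z i ∧ z i < w i ∧ w i ≤ b i) →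
    ∑ i ∈ s, |ls f (x i) (y i) - ls f (z i) (w i)| ≤ V

lemma quo_pos (f : unitInterval ≃o unitInterval) {x y : unitInterval} (h : x < y) :
    0 < ((f y : ℝ) - f x) / ((y : ℝ) - x) := by
  have h1 : (f x : ℝ) < f y := Subtype.coe_lt_coe.2 (f.strictMono h)
  have h2 : (x : ℝ) < y := Subtype.coe_lt_coe.2 h
  exact div_pos (sub_pos.2 h1) (sub_pos.2 h2)

lemma ls_mul (f g : unitInterval ≃o unitInterval) {x y : unitInterval} (h : x < y) :
    ls (f * g) x y = ls f (g x) (g y) + ls g x y := by
  have h1 : (g x : ℝ) < g y := Subtype.coe_lt_coe.2 (g.strictMono h)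
  unfold ls
  rw [← Real.log_mul (quo_pos f (g.strictMono h)).ne' (quo_pos g h).ne']
  congr 1
  rw [RelIso.mul_apply, RelIso.mul_apply]
  field_simp [(sub_pos.2 h1).ne']

lemma ls_one {x y : unitInterval} (h : x < y) : ls 1 x y = 0 := by
  have h2 : (x : ℝ) < y := Subtype.coe_lt_coe.2 h
  unfold ls
  rw [RelIso.one_apply, RelIso.one_apply, div_self (sub_pos.2 h2).ne', Real.log_one]

lemma ls_inv (f : unitInterval ≃o unitInterval) {x y : unitInterval} (h : x < y) :
    ls f⁻¹ x y = - ls f (f⁻¹ x) (f⁻¹ y) := by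
  have h1 := ls_mul f f⁻¹ h
  rw [mul_inv_cancel, ls_one h] at h1
  linarith

lemma isP_one : IsP 1 := by
  refine ⟨0, fun s a b x y z w _ h => ?_⟩
  apply le_of_eq
  apply Finset.sum_eq_zero
  intro i hi
  obtain ⟨_, h1, _, _, h2, _⟩ := h i hi
  rw [ls_one h1, ls_one h2, sub_self, abs_zero]

lemma IsP.mul {f g : unitInterval ≃o unitInterval} (hf : IsP f) (hg : IsP g) : IsP (f * g) := by
  obtain ⟨V, hV⟩ := hf
  obtain ⟨W, hW⟩ := hg
  refine ⟨V + W, fun s a b x y z w hd h => ?_⟩
  have h1 := hV s (fun i => g (a i)) (fun i => g (b i)) (fun i => g (x i)) (fun i => g (y i))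
    (fun i => g (z i)) (fun i => g (w i))
    (fun i hi j hj hij => (hd i hi j hj hij).imp (fun h => g.monotone h) (fun h => g.monotone h))
    (fun i hi => by
      obtain ⟨h1, h2, h3, h4, h5, h6⟩ := h i hi
      exact ⟨g.monotone h1, g.strictMono h2, g.monotone h3, g.monotone h4, g.strictMono h5,
        g.monotone h6⟩)
  have h2 := hW s a b x y z w hd h
  refine le_trans ?_ (add_le_add h1 h2)
  rw [← Finset.sum_add_distrib]
  apply Finset.sum_le_sum
  intro i hi
  obtain ⟨_, h3, _, _, h4, _⟩ := h i hi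
  rw [ls_mul f g h3, ls_mul f g h4]
  refine le_trans (le_of_eq ?_) (abs_add_le _ _)
  congr 1
  ring

lemma IsP.inv {f : unitInterval ≃o unitInterval} (hf : IsP f) : IsP f⁻¹ := by
  obtain ⟨V, hV⟩ := hf
  refine ⟨V, fun s a b x y z w hd h => ?_⟩
  set g := f⁻¹ with hg
  have h1 := hV s (fun i => g (a i)) (fun i => g (b i)) (fun i => g (x i)) (fun i => g (y i))
    (fun i => g (z i)) (fun i => g (w i))
    (fun i hi j hj hij => (hd i hi j hj hij).imp (fun h => g.monotone h) (fun h => g.monotone h))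
    (fun i hi => by
      obtain ⟨h1, h2, h3, h4, h5, h6⟩ := h i hi
      exact ⟨g.monotone h1, g.strictMono h2, g.monotone h3, g.monotone h4, g.strictMono h5,
        g.monotone h6⟩)
  refine le_trans (le_of_eq ?_) h1
  apply Finset.sum_congr rfl
  intro i hi
  obtain ⟨_, h3, _, _, h4, _⟩ := h i hi
  rw [hg, ls_inv f h3, ls_inv f h4, ← abs_neg]
  congr 1
  ring

/-- the group of increasing homeomorphisms of `[0,1]` of class `P` -/
def PP : Subgroup (unitInterval ≃o unitInterval) where
  carrier := {f | IsP f}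
  mul_mem' := fun h1 h2 => IsP.mul h1 h2
  one_mem' := isP_one
  inv_mem' := fun h => IsP.inv h

end Pool.Agent.Y72.Ko
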