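import Pool.Agent.Y72.Ko.Hol
import Pool.Agent.H97R3.Config

/-!
# Homomorphisms to the group of homeomorphisms of class `P` kill the word
-/

set_option autoImplicit false

namespace Pool.Agent.Y72.Ko

open Finset Set

lemma inv_pow_apply (h : unitInterval ≃o unitInterval) (m : ℕ) (x : unitInterval) :
    (h ^ m) ((h⁻¹ ^ m) x) = x := by
  rw [← RelIso.mul_apply, inv_pow, mul_inv_cancel, RelIso.one_apply]

lemma ends_aux {h U : unitInterval ≃o unitInterval} (hh : h ∈ PP) (hU : U ∈ PP)
    (hc : Commute h U) {x : unitInterval} (hx : h x < x) :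
    U x < be h⁻¹ x ∧ al h x < U x := by
  have hix : x ≤ h⁻¹ x := by
    have := h⁻¹.monotone hx.le
    rwa [RelIso.inv_apply_self] at this
  have ha : h (al h x) = al h x := al_fix hx.le
  have hb' : h⁻¹ (be h⁻¹ x) = be h⁻¹ x := be_fix hix
  have hb : h (be h⁻¹ x) = be h⁻¹ x := by
    have := fix_inv hb'
    rwa [inv_inv] at this
  have hax : al h x < x := by
    have := al_le h x 1
    rw [pow_one] at this
    exact this.trans_lt hx
  have hxb : x < be h⁻¹ x := by
    have h1 := le_be h⁻¹ x 1
    rw [pow_one] at h1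
    refine lt_of_lt_of_le ?_ h1
    have := h⁻¹.strictMono hx
    rwa [RelIso.inv_apply_self] at this
  have low : ∀ c, h c = c → c ≤ x → c ≤ al h x := fun c h1 h2 => le_al h1 h2
  have upp : ∀ c, h c = c → x ≤ c → be h⁻¹ x ≤ c := fun c h1 h2 => be_le (fix_inv h1) h2
  constructor
  · by_contra hcon
    rw [not_lt] at hcon
    have h1 : U⁻¹ (be h⁻¹ x) ≤ x := by
      have := U⁻¹.monotone hcon
      rwa [RelIso.inv_apply_self] at this
    have h2 : h (U⁻¹ (be h⁻¹ x)) = U⁻¹ (be h⁻¹ x) := by
      rw [comm_apply hc.inv_right, hb]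
    have h3 : h x = x := core (PP.inv_mem hU) hh hc.inv_right.symm (h1.trans_lt hxb) hb h1 hxb.le
    exact absurd h3 hx.ne
  · by_contra hcon
    rw [not_lt] at hcon
    have h1 : x ≤ U⁻¹ (al h x) := by
      have := U⁻¹.monotone hcon
      rwa [RelIso.inv_apply_self] at this
    have h2 : h (U⁻¹ (al h x)) = U⁻¹ (al h x) := by
      rw [comm_apply hc.inv_right, ha]
    have h3 := U.monotone (upp _ h2 h1)
    rw [RelIso.apply_inv_self] at h3
    have h4 : h x = x := core hU hh hc.symm (h3.trans_lt (hax.trans hxb)) hb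
      (h3.trans hax.le) hxb.le
    exact absurd h4 hx.ne

lemma ends {h U : unitInterval ≃o unitInterval} (hh : h ∈ PP) (hU : U ∈ PP)
    (hc : Commute h U) {x : unitInterval} (hx : h x < x) : U ∈ Cg h (al h x) (be h⁻¹ x) := by
  have hix : x ≤ h⁻¹ x := by
    have := h⁻¹.monotone hx.le
    rwa [RelIso.inv_apply_self] at this
  have ha : h (al h x) = al h x := al_fix hx.le
  have hb' : h⁻¹ (be h⁻¹ x) = be h⁻¹ x := be_fix hix
  have hb : h (be h⁻¹ x) = be h⁻¹ x := by
    have := fix_inv hb'
    rwa [inv_inv] at this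
  have hax : al h x < x := by
    have := al_le h x 1
    rw [pow_one] at this
    exact this.trans_lt hx
  have hxb : x < be h⁻¹ x := by
    have h1 := le_be h⁻¹ x 1
    rw [pow_one] at h1
    refine lt_of_lt_of_le ?_ h1
    have := h⁻¹.strictMono hx
    rwa [RelIso.inv_apply_self] at this
  have low : ∀ c, h c = c → c ≤ x → c ≤ al h x := fun c h1 h2 => le_al h1 h2
  have upp : ∀ c, h c = c → x ≤ c → be h⁻¹ x ≤ c := fun c h1 h2 => be_le (fix_inv h1) h2
  have key1 : ∀ W : unitInterval ≃o unitInterval, W ∈ PP → Commute h W →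
      W (al h x) ≤ al h x := by
    intro W hW hcW
    apply low
    · rw [comm_apply hcW, ha]
    · by_contra hcon
      rw [not_le] at hcon
      have h1 := upp (W (al h x)) (by rw [comm_apply hcW, ha]) hcon.le
      have h2 := (ends_aux hh hW hcW hx).1
      exact absurd (h1.trans (W.monotone hax.le)) (not_le.2 h2)
  have key2 : ∀ W : unitInterval ≃o unitInterval, W ∈ PP → Commute h W →
      be h⁻¹ x ≤ W (be h⁻¹ x) := by
    intro W hW hcW
    apply upp
    · rw [comm_apply hcW, hb]
    · by_contra hcon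
      rw [not_le] at hcon
      have h1 := low (W (be h⁻¹ x)) (by rw [comm_apply hcW, hb]) hcon.le
      have h2 := (ends_aux hh hW hcW hx).2
      exact absurd ((W.monotone hxb.le).trans h1) (not_le.2 h2)
  refine ⟨hU, hc, le_antisymm (key1 U hU hc) ?_, le_antisymm ?_ (key2 U hU hc)⟩
  · have := U.monotone (key1 U⁻¹ (PP.inv_mem hU) hc.inv_right)
    rwa [RelIso.apply_inv_self] at this
  · have := U.monotone (key2 U⁻¹ (PP.inv_mem hU) hc.inv_right)
    rwa [RelIso.apply_inv_self] at this

lemma fix_aux {U V h : unitInterval ≃o unitInterval} (hU : U ∈ PP) (hV : V ∈ PP)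
    (hh : h ∈ PP) (hhU : Commute h U) (hhV : Commute h V) {x : unitInterval}
    (hx : (U * V * U⁻¹ * V⁻¹) x ≠ x) : ¬ h x < x := by
  intro hhx
  apply hx
  have hUC := ends hh hU hhU hhx
  have hVC := ends hh hV hhV hhx
  have hax : al h x < x := by
    have := al_le h x 1
    rw [pow_one] at this
    exact this.trans_lt hhx
  have hxb : x < be h⁻¹ x := by
    have h1 := le_be h⁻¹ x 1
    rw [pow_one] at h1
    refine lt_of_lt_of_le ?_ h1
    have := h⁻¹.strictMono hhx
    rwa [RelIso.inv_apply_self] at this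
  have H2 : ∀ y ∈ Ioo (al h x) (be h⁻¹ x), ∀ z ∈ Ioo (al h x) (be h⁻¹ x),
      ∃ N : ℕ, (h ^ N) y < z := by
    intro y hy z hz
    obtain ⟨n, hn⟩ := iInf_lt_iff.1 hz.1
    obtain ⟨m, hm⟩ := lt_iSup_iff.1 hy.2
    refine ⟨n + m, ?_⟩
    rw [pow_add, RelIso.mul_apply]
    have h1 := (h ^ m).strictMono hm
    rw [inv_pow_apply] at h1
    exact ((h ^ n).strictMono h1).trans hn
  have Hc : ∀ y ∈ Ioo (al h x) (be h⁻¹ x), h y < y := by
    intro y hy
    by_contra hcon
    rw [not_lt] at hcon
    obtain ⟨N, hN⟩ := H2 y hy y hy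
    have h1 := pow_mono hcon (Nat.zero_le N)
    simp only [pow_zero, RelIso.one_apply] at h1
    exact absurd hN (not_lt.2 h1)
  have hxI : x ∈ Ioo (al h x) (be h⁻¹ x) := ⟨hax, hxb⟩
  have hy := Cg_Ioo ((Cg h _ _).mul_mem ((Cg h _ _).inv_mem hUC) ((Cg h _ _).inv_mem hVC)) hxI
  have h1 := hol hh Hc H2 hUC hVC hy
  rw [RelIso.mul_apply] at h1
  rw [RelIso.mul_apply, RelIso.mul_apply, RelIso.mul_apply, h1, RelIso.apply_inv_self,
    RelIso.apply_inv_self]

/-- **Key lemma**: an element of class `P` commuting with `U` and with `V` fixes every point moved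
by the commutator of `U` and `V`. -/
theorem fix_supp {U V h : unitInterval ≃o unitInterval} (hU : U ∈ PP) (hV : V ∈ PP)
    (hh : h ∈ PP) (hhU : Commute h U) (hhV : Commute h V) {x : unitInterval}
    (hx : (U * V * U⁻¹ * V⁻¹) x ≠ x) : h x = x := by
  rcases lt_trichotomy (h x) x with h1 | h1 | h1
  · exact absurd h1 (fix_aux hU hV hh hhU hhV hx)
  · exact h1
  · exfalso
    apply fix_aux hU hV (PP.inv_mem hh) hhU.inv_left hhV.inv_left hx
    have := h⁻¹.strictMono h1
    rwa [RelIso.inv_apply_self] at this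

open Pool.Agent.H97R3.Config Pool.Agent.H97R3.Ord Equiv

/-- Every homomorphism to the group of increasing homeomorphisms of class `P` kills the word. -/
theorem killed {G : Type} [Group G] {U V : Fin 4 → G} {t : Fin 3 → G} {c : G}
    (h : IsConfig U V t c) (φ : G →* PP) : φ (word U V c) = 1 := by
  let F : G →* Perm unitInterval :=
    { toFun := fun g => ((φ g : PP) : unitInterval ≃o unitInterval).toEquiv
      map_one' := by rw [map_one]; rfl
      map_mul' := fun x y => by rw [map_mul]; rfl }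
  have mono : ∀ g, StrictMono (F g) := fun g => ((φ g : PP) : unitInterval ≃o unitInterval).strictMono
  have Fcom : ∀ x y, F (com x y) = com (F x) (F y) := fun x y => map_com F x y
  let S : Fin 4 → Set unitInterval := fun i => {x | F (com (U i) (V i)) x ≠ x}
  have F1 : ∀ (g : G) (i : Fin 4), Commute g (U i) → Commute g (V i) →
      ∀ x ∈ S i, F g x = x := by
    intro g i h1 h2 x hx
    have e1 : Commute ((φ g : PP) : unitInterval ≃o unitInterval) (φ (U i) : PP) := by
      have := h1.map φ
      exact this.map PP.subtype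
    have e2 : Commute ((φ g : PP) : unitInterval ≃o unitInterval) (φ (V i) : PP) := by
      have := h2.map φ
      exact this.map PP.subtype
    have hx' : ((φ (U i) : unitInterval ≃o unitInterval) * (φ (V i)) *
        (φ (U i) : unitInterval ≃o unitInterval)⁻¹
        * (φ (V i) : unitInterval ≃o unitInterval)⁻¹) x ≠ x := by
      have e3 : ((φ (com (U i) (V i)) : PP) : unitInterval ≃o unitInterval) =
          (φ (U i) : unitInterval ≃o unitInterval) * (φ (V i)) *
          (φ (U i) : unitInterval ≃o unitInterval)⁻¹ *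
          (φ (V i) : unitInterval ≃o unitInterval)⁻¹ := by
        rw [map_com]
        simp [com]
      rw [← e3]
      exact hx
    exact fix_supp (φ (U i)).2 (φ (V i)).2 (φ g).2 e1 e2 hx'
  have Fcc : ∀ g i, Commute g (U i) → Commute g (V i) → Commute g (com (U i) (V i)) := by
    intro g i h1 h2
    unfold com
    exact ((h1.mul_right h2).mul_right h1.inv_right).mul_right h2.inv_right
  have hUj : ∀ i j : Fin 4, i ≠ j → Commute (com (U i) (V i)) (U j) ∧
      Commute (com (U i) (V i)) (V j) := by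
    intro i j hij
    have h1 := h.comm i j hij
    have h2 := h.comm j i hij.symm
    refine ⟨(Fcc (U j) i h2.1 h2.2.1).symm, ?_⟩
    exact (Fcc (V j) i h1.2.1.symm h2.2.2).symm
  have S_away : ∀ i j : Fin 4, i ≠ j → ∀ x ∈ S j, F (com (U i) (V i)) x = x := by
    intro i j hij
    exact F1 _ j (hUj i j hij).1 (hUj i j hij).2
  have S_move : ∀ (i : Fin 3) (x), x ∈ S i.castSucc ↔ F (t i) x ∈ S i.succ := by
    intro i x
    have h1 := h.move i
    have e1 : U i.succ = t i * U i.castSucc * (t i)⁻¹ := by rw [h1.1]; group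
    have e2 : V i.succ = t i * V i.castSucc * (t i)⁻¹ := by rw [h1.2]; group
    have e3 : com (U i.succ) (V i.succ) = t i * com (U i.castSucc) (V i.castSucc) * (t i)⁻¹ := by
      rw [e1, e2]; unfold com; group
    show F (com (U i.castSucc) (V i.castSucc)) x ≠ x ↔
      F (com (U i.succ) (V i.succ)) (F (t i) x) ≠ F (t i) x
    rw [e3]
    have e4 : (F (t i))⁻¹ ((F (t i)) x) = x := (F (t i)).symm_apply_apply x
    simp only [map_mul, map_inv, Perm.mul_apply]
    rw [e4]
    exact (F (t i)).injective.ne_iff.symm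
  have res := main_order (S 0) (S 1) (S 2) (S 3) (F (t 0)) (F (t 1)) (F (t 2)) (F c)
    (F (com (U 1) (V 1))) (F (com (U 2) (V 2)))
    (mono _) (mono _) (mono _) (mono _) (mono _) (mono _)
    (S_move 0) (S_move 1) (S_move 2)
    (F1 _ 2 (h.away 0 2 (by decide) (by decide)).1 (h.away 0 2 (by decide) (by decide)).2)
    (F1 _ 3 (h.away 0 3 (by decide) (by decide)).1 (h.away 0 3 (by decide) (by decide)).2)
    (F1 _ 0 (h.away 1 0 (by decide) (by decide)).1 (h.away 1 0 (by decide) (by decide)).2)
    (F1 _ 3 (h.away 1 3 (by decide) (by decide)).1 (h.away 1 3 (by decide) (by decide)).2)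
    (F1 _ 0 (h.away 2 0 (by decide) (by decide)).1 (h.away 2 0 (by decide) (by decide)).2)
    (F1 _ 1 (h.away 2 1 (by decide) (by decide)).1 (h.away 2 1 (by decide) (by decide)).2)
    (F1 _ 0 h.cU.1 h.cU.2.1)
    (F1 _ 3 h.cU.2.2.1 h.cU.2.2.2)
    (S_away 1 0 (by decide)) (S_away 1 2 (by decide)) (S_away 1 3 (by decide))
    (S_away 2 0 (by decide)) (S_away 2 3 (by decide))
    (fun x => Iff.rfl) (fun x => Iff.rfl)
  apply Subtype.ext
  apply RelIso.ext
  intro x
  have h2 := res x
  have h3 : F (word U V c) x = x := by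
    have : F (word U V c) = com (com (F c * F (com (U 1) (V 1)) * (F c)⁻¹) (F (com (U 2) (V 2))))
        (com (F c * F (com (U 2) (V 2)) * (F c)⁻¹) (F (com (U 1) (V 1)))) := by
      unfold word
      rw [Fcom, Fcom (c * com (U 1) (V 1) * c⁻¹), Fcom (c * com (U 2) (V 2) * c⁻¹)]
      simp only [map_mul, map_inv]
    rw [this]
    exact h2
  exact h3

end Pool.Agent.Y72.Ko
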