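import Pool.Agent.Y72.Ko.Kop

/-!
# The centralizer of a homeomorphism without fixed points is commutative (class `P`)
-/

set_option autoImplicit false

namespace Pool.Agent.Y72.Ko

open Finset Set

/-- the lower limit of the orbit -/
noncomputable def al (f : unitInterval ≃o unitInterval) (y : unitInterval) : unitInterval :=
  ⨅ n : ℕ, (f ^ n) y

/-- the upper limit of the orbit -/
noncomputable def be (f : unitInterval ≃o unitInterval) (y : unitInterval) : unitInterval :=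
  ⨆ n : ℕ, (f ^ n) y

lemma fix_pow {f : unitInterval ≃o unitInterval} {c : unitInterval} (h : f c = c) (n : ℕ) :
    (f ^ n) c = c := by
  induction n with
  | zero => rw [pow_zero, RelIso.one_apply]
  | succ n ih => rw [pow_apply_succ, h, ih]

lemma pow_mono {f : unitInterval ≃o unitInterval} {b : unitInterval} (hb : b ≤ f b) :
    Monotone fun n : ℕ => (f ^ n) b := by
  apply monotone_nat_of_le_succ
  intro n
  rw [pow_apply_succ]
  exact (f ^ n).monotone hb

lemma al_le (f : unitInterval ≃o unitInterval) (y : unitInterval) (n : ℕ) :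
    al f y ≤ (f ^ n) y := iInf_le _ n

lemma le_be (f : unitInterval ≃o unitInterval) (y : unitInterval) (n : ℕ) :
    (f ^ n) y ≤ be f y := le_iSup (fun n : ℕ => (f ^ n) y) n

lemma al_fix {f : unitInterval ≃o unitInterval} {y : unitInterval} (h : f y ≤ y) :
    f (al f y) = al f y := by
  unfold al
  rw [OrderIso.map_iInf]
  have h1 := (pow_anti h).iInf_nat_add 1
  refine Eq.trans ?_ h1
  congr 1
  funext n
  exact (pow_apply_succ' f n y).symm

lemma be_fix {f : unitInterval ≃o unitInterval} {y : unitInterval} (h : y ≤ f y) :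
    f (be f y) = be f y := by
  unfold be
  rw [OrderIso.map_iSup]
  have h1 := (pow_mono h).iSup_nat_add 1
  refine Eq.trans ?_ h1
  congr 1
  funext n
  exact (pow_apply_succ' f n y).symm

lemma le_al {f : unitInterval ≃o unitInterval} {c y : unitInterval} (hc : f c = c)
    (h : c ≤ y) : c ≤ al f y := by
  apply le_iInf
  intro n
  rw [← fix_pow hc n]
  exact (f ^ n).monotone h

lemma be_le {f : unitInterval ≃o unitInterval} {c y : unitInterval} (hc : f c = c)
    (h : y ≤ c) : be f y ≤ c := by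
  apply iSup_le
  intro n
  rw [← fix_pow hc n]
  exact (f ^ n).monotone h

lemma fix_inv {f : unitInterval ≃o unitInterval} {c : unitInterval} (h : f c = c) :
    f⁻¹ c = c := by
  conv_lhs => rw [← h]
  exact RelIso.inv_apply_self f c

/-- the elements of `PP` which commute with `h` and fix `α` and `β` -/
def Cg (h : unitInterval ≃o unitInterval) (α β : unitInterval) :
    Subgroup (unitInterval ≃o unitInterval) where
  carrier := {w | w ∈ PP ∧ Commute h w ∧ w α = α ∧ w β = β}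
  mul_mem' := by
    rintro u v ⟨h1, h2, h3, h4⟩ ⟨k1, k2, k3, k4⟩
    exact ⟨PP.mul_mem h1 k1, h2.mul_right k2, by rw [RelIso.mul_apply, k3, h3],
      by rw [RelIso.mul_apply, k4, h4]⟩
  one_mem' := ⟨PP.one_mem, Commute.one_right _, RelIso.one_apply _, RelIso.one_apply _⟩
  inv_mem' := by
    rintro u ⟨h1, h2, h3, h4⟩
    exact ⟨PP.inv_mem h1, h2.inv_right, fix_inv h3, fix_inv h4⟩

section main

variable {h : unitInterval ≃o unitInterval} {α β : unitInterval}

lemma Cg_Ioo {w : unitInterval ≃o unitInterval} (hw : w ∈ Cg h α β) {y : unitInterval}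
    (hy : y ∈ Ioo α β) : w y ∈ Ioo α β := by
  obtain ⟨_, _, h3, h4⟩ := hw
  constructor
  · rw [← h3]
    exact w.strictMono hy.1
  · conv_rhs => rw [← h4]
    exact w.strictMono hy.2

lemma F0 (hh : h ∈ PP) (Hc : ∀ y ∈ Ioo α β, h y < y)
    (H2 : ∀ y ∈ Ioo α β, ∀ z ∈ Ioo α β, ∃ N : ℕ, (h ^ N) y < z)
    {w : unitInterval ≃o unitInterval} (hw : w ∈ Cg h α β) {y : unitInterval}
    (hy : y ∈ Ioo α β) (hwy : w y = y) {z : unitInterval} (hz : z ∈ Ioo α β) : w z = z := by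
  classical
  obtain ⟨hwP, hcw, _, _⟩ := hw
  rcases lt_trichotomy z y with hzy | hzy | hzy
  · have hex : ∃ N : ℕ, (h ^ N) y ≤ z := (H2 y hy z hz).imp fun _ => le_of_lt
    have h1 := Nat.find_spec hex
    have h0 : Nat.find hex ≠ 0 := by
      intro h0
      rw [h0, pow_zero, RelIso.one_apply] at h1
      exact absurd h1 (not_le.2 hzy)
    obtain ⟨k, hk⟩ := Nat.exists_eq_succ_of_ne_zero h0
    have h2 : z < (h ^ k) y := by
      have := Nat.find_min hex (m := k) (by omega)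
      exact not_le.1 this
    rw [hk] at h1
    change (h ^ (k + 1)) y ≤ z at h1
    rw [pow_apply_succ'] at h1
    have h3 : w ((h ^ k) y) = (h ^ k) y := by
      rw [← comm_apply (hcw.pow_left k), hwy]
    exact core hh hwP hcw (h1.trans_lt h2) h3 h1 h2.le
  · rw [hzy, hwy]
  · have hex : ∃ N : ℕ, (h ^ N) z ≤ y := (H2 z hz y hy).imp fun _ => le_of_lt
    have h1 := Nat.find_spec hex
    have h0 : Nat.find hex ≠ 0 := by
      intro h0
      rw [h0, pow_zero, RelIso.one_apply] at h1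
      exact absurd h1 (not_le.2 hzy)
    obtain ⟨k, hk⟩ := Nat.exists_eq_succ_of_ne_zero h0
    have h2 : y < (h ^ k) z := by
      have := Nat.find_min hex (m := k) (by omega)
      exact not_le.1 this
    rw [hk] at h1
    change (h ^ (k + 1)) z ≤ y at h1
    have h4 : h y ≤ (h ^ (k + 1)) z := by
      rw [pow_apply_succ']
      exact h.monotone h2.le
    have h3 := core hh hwP hcw (Hc y hy) hwy h4 h1
    rw [← comm_apply (hcw.pow_left (k + 1))] at h3
    exact (h ^ (k + 1)).injective h3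

lemma al_eq (hh : h ∈ PP) (Hc : ∀ y ∈ Ioo α β, h y < y)
    (H2 : ∀ y ∈ Ioo α β, ∀ z ∈ Ioo α β, ∃ N : ℕ, (h ^ N) y < z)
    {w : unitInterval ≃o unitInterval} (hw : w ∈ Cg h α β) {a : unitInterval}
    (ha : a ∈ Ioo α β) (hwa : w a < a) : al w a = α := by
  have h1 : α ≤ al w a := le_al hw.2.2.1 ha.1.le
  rcases h1.eq_or_lt with h2 | h2
  · exact h2.symm
  · exfalso
    have h3 : al w a ∈ Ioo α β := by
      refine ⟨h2, lt_of_le_of_lt ?_ ha.2⟩
      have := al_le w a 0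
      rwa [pow_zero, RelIso.one_apply] at this
    have h4 := F0 hh Hc H2 hw h3 (al_fix hwa.le) ha
    exact absurd h4 hwa.ne

lemma F2 (hh : h ∈ PP) (Hc : ∀ y ∈ Ioo α β, h y < y)
    (H2 : ∀ y ∈ Ioo α β, ∀ z ∈ Ioo α β, ∃ N : ℕ, (h ^ N) y < z)
    {w : unitInterval ≃o unitInterval} (hw : w ∈ Cg h α β) {a : unitInterval}
    (ha : a ∈ Ioo α β) (hwa : w a < a) {z : unitInterval} (hz : z ∈ Ioo α β) :
    ∃ N : ℕ, (w ^ N) a < z := by
  have h1 := al_eq hh Hc H2 hw ha hwa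
  have h2 : al w a < z := by
    rw [h1]
    exact hz.1
  exact iInf_lt_iff.1 h2

lemma F1core (hh : h ∈ PP) (Hc : ∀ y ∈ Ioo α β, h y < y)
    (H2 : ∀ y ∈ Ioo α β, ∀ z ∈ Ioo α β, ∃ N : ℕ, (h ^ N) y < z)
    {w : unitInterval ≃o unitInterval} (hw : w ∈ Cg h α β) {a b : unitInterval}
    (ha : a ∈ Ioo α β) (hb : b ∈ Ioo α β) (hwa : w a < a) (hba : b < a) (hwb : b < w b) :
    False := by
  obtain ⟨N, hN⟩ := F2 hh Hc H2 hw ha hwa hb
  have h1 : b ≤ (w ^ N) b := by
    have h2 := pow_mono hwb.le (Nat.zero_le N)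
    simp only [pow_zero, RelIso.one_apply] at h2
    exact h2
  have h3 := (w ^ N).strictMono hba
  exact absurd (h1.trans_lt (h3.trans hN)) (lt_irrefl _)

lemma F1 (hh : h ∈ PP) (Hc : ∀ y ∈ Ioo α β, h y < y)
    (H2 : ∀ y ∈ Ioo α β, ∀ z ∈ Ioo α β, ∃ N : ℕ, (h ^ N) y < z)
    {w : unitInterval ≃o unitInterval} (hw : w ∈ Cg h α β) {a b : unitInterval}
    (ha : a ∈ Ioo α β) (hb : b ∈ Ioo α β) (hwa : w a < a) : w b < b := by
  rcases lt_trichotomy (w b) b with h1 | h1 | h1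
  · exact h1
  · exact absurd (F0 hh Hc H2 hw hb h1 ha) hwa.ne
  · exfalso
    rcases lt_trichotomy a b with h2 | h2 | h2
    · have h3 : w⁻¹ b < b := by
        have := w⁻¹.strictMono h1
        rwa [RelIso.inv_apply_self] at this
      have h4 : a < w⁻¹ a := by
        have := w⁻¹.strictMono hwa
        rwa [RelIso.inv_apply_self] at this
      exact F1core hh Hc H2 ((Cg h α β).inv_mem hw) hb ha h3 h2 h4
    · rw [h2] at hwa
      exact absurd (hwa.trans h1) (lt_irrefl _)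
    · exact F1core hh Hc H2 hw ha hb hwa h2 h1

lemma cmp (hh : h ∈ PP) (Hc : ∀ y ∈ Ioo α β, h y < y)
    (H2 : ∀ y ∈ Ioo α β, ∀ z ∈ Ioo α β, ∃ N : ℕ, (h ^ N) y < z)
    {u v : unitInterval ≃o unitInterval} (hu : u ∈ Cg h α β) (hv : v ∈ Cg h α β)
    {y z : unitInterval} (hy : y ∈ Ioo α β) (hz : z ∈ Ioo α β) (huv : u y < v y) :
    u z < v z := by
  have h1 : (v⁻¹ * u) y < y := by
    rw [RelIso.mul_apply]
    have := v⁻¹.strictMono huv
    rwa [RelIso.inv_apply_self] at this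
  have h2 := F1 hh Hc H2 ((Cg h α β).mul_mem ((Cg h α β).inv_mem hv) hu) hy hz h1
  rw [RelIso.mul_apply] at h2
  have h3 := v.strictMono h2
  rwa [RelIso.apply_inv_self] at h3

lemma cmp_le (hh : h ∈ PP) (Hc : ∀ y ∈ Ioo α β, h y < y)
    (H2 : ∀ y ∈ Ioo α β, ∀ z ∈ Ioo α β, ∃ N : ℕ, (h ^ N) y < z)
    {u v : unitInterval ≃o unitInterval} (hu : u ∈ Cg h α β) (hv : v ∈ Cg h α β)
    {y z : unitInterval} (hy : y ∈ Ioo α β) (hz : z ∈ Ioo α β) (huv : u y ≤ v y) :
    u z ≤ v z := by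
  by_contra hcon
  exact absurd (cmp hh Hc H2 hv hu hz hy (not_le.1 hcon)) (not_lt.2 huv)

lemma zp (hh : h ∈ PP) (Hc : ∀ y ∈ Ioo α β, h y < y)
    (H2 : ∀ y ∈ Ioo α β, ∀ z ∈ Ioo α β, ∃ N : ℕ, (h ^ N) y < z)
    {γ a : unitInterval ≃o unitInterval} (hγ : γ ∈ Cg h α β) (ha : a ∈ Cg h α β)
    {x : unitInterval} (hx : x ∈ Ioo α β) (hγx : γ x < x) :
    ∃ m : ℤ, (γ ^ (m + 1)) x < a x ∧ a x ≤ (γ ^ m) x := by
  have hax := Cg_Ioo ha hx
  obtain ⟨N, hN⟩ := F2 hh Hc H2 hγ hx hγx hax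
  obtain ⟨M, hM⟩ := F2 hh Hc H2 hγ hax (F1 hh Hc H2 hγ hx hax hγx) hx
  have hbd : ∃ b : ℤ, ∀ z : ℤ, a x ≤ (γ ^ z) x → z ≤ b := by
    refine ⟨N, fun z hz => ?_⟩
    by_contra hcon
    obtain ⟨k, hk⟩ := Int.eq_ofNat_of_zero_le (show 0 ≤ z - N by omega)
    have h1 : z = (N : ℤ) + (k : ℤ) := by omega
    have h2 : (γ ^ z) x = (γ ^ N) ((γ ^ k) x) := by
      rw [h1, zpow_add, zpow_natCast, zpow_natCast, RelIso.mul_apply]
    have h3 : (γ ^ k) x ≤ x := by
      have := pow_anti hγx.le (Nat.zero_le k)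
      simp only [pow_zero, RelIso.one_apply] at this
      exact this
    rw [h2] at hz
    exact absurd (hz.trans ((γ ^ N).monotone h3)) (not_le.2 hN)
  have hin : ∃ z : ℤ, a x ≤ (γ ^ z) x := by
    refine ⟨-(M : ℤ), ?_⟩
    rw [zpow_neg, zpow_natCast]
    have := (γ ^ M)⁻¹.strictMono hM
    rw [RelIso.inv_apply_self] at this
    exact this.le
  obtain ⟨m, hm, hmax⟩ := Int.exists_greatest_of_bdd hbd hin
  refine ⟨m, ?_, hm⟩
  by_contra hcon
  have := hmax (m + 1) (not_lt.1 hcon)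
  omega

lemma hol_aux (hh : h ∈ PP) (Hc : ∀ y ∈ Ioo α β, h y < y)
    (H2 : ∀ y ∈ Ioo α β, ∀ z ∈ Ioo α β, ∃ N : ℕ, (h ^ N) y < z)
    {U V : unitInterval ≃o unitInterval} (hU : U ∈ Cg h α β) (hV : V ∈ Cg h α β)
    {x : unitInterval} (hx : x ∈ Ioo α β) (hUV : U (V x) < V (U x)) : False := by
  have hUx := Cg_Ioo hU hx
  have hVx := Cg_Ioo hV hx
  have hVUx := Cg_Ioo hV hUx
  by_cases hmin : ∃ w ∈ Cg h α β, w x < x ∧ ∀ w' ∈ Cg h α β, ¬ (w x < w' x ∧ w' x < x)
  · obtain ⟨w, hw, hwx, hwm⟩ := hmin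
    have key : ∀ a ∈ Cg h α β, ∃ m : ℤ, a x = (w ^ m) x := by
      intro a ha
      obtain ⟨m, h1, h2⟩ := zp hh Hc H2 hw ha hx hwx
      refine ⟨m, ?_⟩
      by_contra hne
      apply hwm ((w ^ m)⁻¹ * a) ((Cg h α β).mul_mem ((Cg h α β).inv_mem
        ((Cg h α β).zpow_mem hw m)) ha)
      have h3 := lt_of_le_of_ne h2 hne
      constructor
      · rw [RelIso.mul_apply]
        have := (w ^ m)⁻¹.strictMono h1
        rwa [zpow_add, zpow_one, RelIso.mul_apply, RelIso.inv_apply_self] at this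
      · rw [RelIso.mul_apply]
        have := (w ^ m)⁻¹.strictMono h3
        rwa [RelIso.inv_apply_self] at this
    obtain ⟨m, hm⟩ := key U hU
    obtain ⟨n, hn⟩ := key V hV
    have hwm' := (Cg h α β).zpow_mem hw m
    have hwn' := (Cg h α β).zpow_mem hw n
    have e1 : U (V x) = (w ^ m) (V x) :=
      le_antisymm (cmp_le hh Hc H2 hU hwm' hx hVx hm.le) (cmp_le hh Hc H2 hwm' hU hx hVx hm.ge)
    have e2 : V (U x) = (w ^ n) (U x) :=
      le_antisymm (cmp_le hh Hc H2 hV hwn' hx hUx hn.le) (cmp_le hh Hc H2 hwn' hV hx hUx hn.ge)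
    rw [e1, e2, hm, hn, ← RelIso.mul_apply, ← RelIso.mul_apply, ← zpow_add, ← zpow_add,
      add_comm] at hUV
    exact absurd hUV (lt_irrefl _)
  · push Not at hmin
    set c : unitInterval ≃o unitInterval := (U * V) * (V * U)⁻¹ with hcdef
    have hcC : c ∈ Cg h α β := (Cg h α β).mul_mem ((Cg h α β).mul_mem hU hV)
      ((Cg h α β).inv_mem ((Cg h α β).mul_mem hV hU))
    have hcz : c (V (U x)) = U (V x) := by
      rw [hcdef, RelIso.mul_apply, ← RelIso.mul_apply V U, RelIso.inv_apply_self,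
        RelIso.mul_apply]
    have hcx : c x < x := F1 hh Hc H2 hcC hVUx hx (by rw [hcz]; exact hUV)
    obtain ⟨γ, hγ, hγx, hγc⟩ : ∃ γ ∈ Cg h α β, γ x < x ∧ c x ≤ γ (γ x) := by
      obtain ⟨w', hw', h1, h2⟩ := hmin c hcC hcx
      by_cases h3 : c x ≤ w' (w' x)
      · exact ⟨w', hw', h2, h3⟩
      · rw [not_le] at h3
        have hw'i := (Cg h α β).inv_mem hw'
        refine ⟨w'⁻¹ * c, (Cg h α β).mul_mem hw'i hcC, ?_, ?_⟩
        · rw [RelIso.mul_apply]
          have := w'⁻¹.strictMono h1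
          rwa [RelIso.inv_apply_self] at this
        · have hcxI := Cg_Ioo hcC hx
          have h4 := Cg_Ioo hw'i hcxI
          have h5 := cmp hh Hc H2 ((Cg h α β).mul_mem hw' hw') hcC hx h4
            (by rw [RelIso.mul_apply]; exact h3)
          rw [RelIso.mul_apply, RelIso.apply_inv_self] at h5
          rw [RelIso.mul_apply, RelIso.mul_apply]
          have h6 := w'⁻¹.strictMono h5
          rw [RelIso.inv_apply_self] at h6
          exact h6.le
    obtain ⟨m, hm1, hm2⟩ := zp hh Hc H2 hγ hU hx hγx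
    obtain ⟨n, hn1, hn2⟩ := zp hh Hc H2 hγ hV hx hγx
    have hzm := (Cg h α β).zpow_mem hγ m
    have hzn := (Cg h α β).zpow_mem hγ n
    have hzm1 := (Cg h α β).zpow_mem hγ (m + 1)
    have hzn1 := (Cg h α β).zpow_mem hγ (n + 1)
    -- V U x ≤ γ ^ (n + m) x
    have a1 : V (U x) ≤ (γ ^ n) ((γ ^ m) x) :=
      (cmp_le hh Hc H2 hV hzn hx hUx hn2).trans ((γ ^ n).monotone hm2)
    have a2 : (γ ^ (m + 1)) ((γ ^ (n + 1)) x) < U (V x) :=
      ((γ ^ (m + 1)).strictMono hn1).trans (cmp hh Hc H2 hzm1 hU hx hVx hm1)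
    have a3 : γ (γ ((γ ^ n) ((γ ^ m) x))) = (γ ^ (m + 1)) ((γ ^ (n + 1)) x) := by
      have e : γ * γ * γ ^ n * γ ^ m = γ ^ (m + 1) * γ ^ (n + 1) := by
        rw [← zpow_add, mul_assoc (γ * γ), ← zpow_add, mul_assoc, ← zpow_one_add, ← zpow_one_add]
        congr 1
        ring
      show (γ * γ * γ ^ n * γ ^ m) x = (γ ^ (m + 1) * γ ^ (n + 1)) x
      rw [e]
    have a4 : γ (γ (V (U x))) ≤ (γ ^ (m + 1)) ((γ ^ (n + 1)) x) := by
      rw [← a3]
      exact γ.monotone (γ.monotone a1)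
    have a5 := cmp_le hh Hc H2 hcC ((Cg h α β).mul_mem hγ hγ) hx hVUx
      (by rw [RelIso.mul_apply]; exact hγc)
    rw [hcz, RelIso.mul_apply] at a5
    exact absurd (a4.trans_lt a2) (not_lt.2 a5)

/-- elements which commute with `h` commute with each other on `(α, β)` -/
theorem hol (hh : h ∈ PP) (Hc : ∀ y ∈ Ioo α β, h y < y)
    (H2 : ∀ y ∈ Ioo α β, ∀ z ∈ Ioo α β, ∃ N : ℕ, (h ^ N) y < z)
    {U V : unitInterval ≃o unitInterval} (hU : U ∈ Cg h α β) (hV : V ∈ Cg h α β)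
    {x : unitInterval} (hx : x ∈ Ioo α β) : U (V x) = V (U x) := by
  rcases lt_trichotomy (U (V x)) (V (U x)) with h1 | h1 | h1
  · exact (hol_aux hh Hc H2 hU hV hx h1).elim
  · exact h1
  · exact (hol_aux hh Hc H2 hV hU hx h1).elim

end main

end Pool.Agent.Y72.Ko
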