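import Pool.Agent.Y72.Ko.Fix
import Pool.Agent.Y72.Ko.Stm
import Pool.Agent.Y454.KO.Loc
import Pool.Agent.Y465.KO.BND
import Pool.Agent.Y339.KO.Glo

/-!
# Piecewise linear and piecewise smooth homeomorphisms are of class `P`
-/

set_option autoImplicit false

namespace Pool.Agent.Y72.Ko

open Pool.Agent.H97R3.PLm

/-- piecewise `C²` homeomorphisms are of class `P` -/
theorem pc2_mem {f : unitInterval ≃o unitInterval} (hf : PC2 f) : f ∈ PP := by
  obtain ⟨B, hB, h⟩ := hf
  obtain ⟨L, K, h1, h2⟩ := Pool.Agent.Y454.KO.loc f B hB h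
  exact Pool.Agent.Y465.KO.bnd f B L K hB h1 (Pool.Agent.Y339.KO.glo f B K hB h2)

/-- piecewise linear homeomorphisms are piecewise `C²` -/
theorem pl_pc2 {f : unitInterval ≃o unitInterval} (hf : IsPL f) : PC2 f := by
  obtain ⟨B, hB, h⟩ := hf
  refine ⟨B, hB, fun x y hxy hxB => ?_⟩
  rcases hxy.eq_or_lt with he | hlt
  · subst he
    refine ⟨fun z => z + ((f x : ℝ) - x), by fun_prop, ?_, ?_⟩
    · intro u _ _
      rw [deriv_add_const]
      simp
    · intro z h1 h2
      have : z = x := le_antisymm h2 h1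
      rw [this]
      ring
  · obtain ⟨m, c, hmc⟩ := h x y hxy hxB
    refine ⟨fun z => m * z + c, by fun_prop, ?_, hmc⟩
    intro u _ _
    have h1 : deriv (fun z : ℝ => m * z + c) u = m := by
      rw [deriv_add_const, deriv_const_mul_field]
      simp
    rw [h1]
    have h2 := hmc x le_rfl hxy
    have h3 := hmc y hxy le_rfl
    have h4 : (f x : ℝ) < f y := Subtype.coe_lt_coe.2 (f.strictMono hlt)
    have h5 : (x : ℝ) < y := Subtype.coe_lt_coe.2 hlt
    rw [h2, h3] at h4
    by_contra hcon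
    rw [not_lt] at hcon
    nlinarith

/-- the group `PL₊([0,1])` is contained in the group of homeomorphisms of class `P` -/
theorem plplus_mem {f : unitInterval ≃ₜ unitInterval} (hf : f ∈ PLplus) :
    ∃ g ∈ PP, ∀ x, g x = f x := by
  obtain ⟨h1, h2⟩ := hf
  refine ⟨h1.orderIsoOfSurjective f f.surjective, pc2_mem (pl_pc2 ?_), fun x => rfl⟩
  exact h2

end Pool.Agent.Y72.Ko
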