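import Pool.Agent.Y72.Ko.Defs

/-!
# Kopell's lemma for homeomorphisms of class `P`
-/

set_option autoImplicit false

namespace Pool.Agent.Y72.Ko

open Finset

lemma pow_apply_succ (f : unitInterval ≃o unitInterval) (n : ℕ) (x : unitInterval) :
    (f ^ (n + 1)) x = (f ^ n) (f x) := by
  rw [pow_succ, RelIso.mul_apply]

lemma pow_apply_succ' (f : unitInterval ≃o unitInterval) (n : ℕ) (x : unitInterval) :
    (f ^ (n + 1)) x = f ((f ^ n) x) := by
  rw [pow_succ', RelIso.mul_apply]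

lemma comm_apply {f g : unitInterval ≃o unitInterval} (h : Commute f g) (x : unitInterval) :
    f (g x) = g (f x) := by
  rw [← RelIso.mul_apply, ← RelIso.mul_apply, h.eq]

lemma pow_anti {f : unitInterval ≃o unitInterval} {b : unitInterval} (hb : f b ≤ b) :
    Antitone fun n : ℕ => (f ^ n) b := by
  apply antitone_nat_of_succ_le
  intro n
  rw [pow_apply_succ]
  exact (f ^ n).monotone hb

lemma ls_pow (f : unitInterval ≃o unitInterval) {x y : unitInterval} (h : x < y) (n : ℕ) :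
    ls (f ^ n) x y = ∑ k ∈ range n, ls f ((f ^ k) x) ((f ^ k) y) := by
  induction n with
  | zero => rw [pow_zero, ls_one h, Finset.sum_range_zero]
  | succ n ih => rw [pow_succ', ls_mul _ _ h, ih, Finset.sum_range_succ, add_comm]

lemma nonover {f : unitInterval ≃o unitInterval} {b : unitInterval} (hb : f b ≤ b) (i j : ℕ)
    (hij : i ≠ j) : (f ^ i) b ≤ (f ^ j) (f b) ∨ (f ^ j) b ≤ (f ^ i) (f b) := by
  rw [← pow_apply_succ, ← pow_apply_succ]
  rcases Nat.lt_or_gt_of_ne hij with h | h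
  · right
    exact pow_anti hb h
  · left
    exact pow_anti hb h

lemma dist_pow {f : unitInterval ≃o unitInterval} {V : ℝ}
    (hV : ∀ (s : Finset ℕ) (a b x y z w : ℕ → unitInterval),
    (∀ i ∈ s, ∀ j ∈ s, i ≠ j → b i ≤ a j ∨ b j ≤ a i) →
    (∀ i ∈ s, a i ≤ x i ∧ x i < y i ∧ y i ≤ b i ∧ a i ≤ z i ∧ z i < w i ∧ w i ≤ b i) →
    ∑ i ∈ s, |ls f (x i) (y i) - ls f (z i) (w i)| ≤ V) {b : unitInterval} (hb : f b ≤ b) (n : ℕ)
    {x y z w : unitInterval} (h1 : f b ≤ x) (h2 : x < y) (h3 : y ≤ b) (h4 : f b ≤ z) (h5 : z < w)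
    (h6 : w ≤ b) : |ls (f ^ n) x y - ls (f ^ n) z w| ≤ V := by
  rw [ls_pow f h2, ls_pow f h5, ← Finset.sum_sub_distrib]
  refine le_trans (Finset.abs_sum_le_sum_abs _ _) ?_
  apply hV (range n) (fun k => (f ^ k) (f b)) (fun k => (f ^ k) b) (fun k => (f ^ k) x)
    (fun k => (f ^ k) y) (fun k => (f ^ k) z) (fun k => (f ^ k) w)
  · intro i _ j _ hij
    exact nonover hb i j hij
  · intro i _
    exact ⟨(f ^ i).monotone h1, (f ^ i).strictMono h2, (f ^ i).monotone h3, (f ^ i).monotone h4,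
      (f ^ i).strictMono h5, (f ^ i).monotone h6⟩

lemma small {f g : unitInterval ≃o unitInterval} (hg : IsP g) (hc : Commute f g)
    {p : unitInterval} (hp : f p < p) (hgp : g p = p) {x y : unitInterval} (h1 : f p ≤ x)
    (h2 : x < y) (h3 : y ≤ p) : ∃ n : ℕ, |ls g ((f ^ n) x) ((f ^ n) y)| ≤ 1 := by
  by_contra hcon
  push Not at hcon
  obtain ⟨W, hW⟩ := hg
  have hfix : ∀ k : ℕ, g ((f ^ k) p) = (f ^ k) p := by
    intro k
    rw [← comm_apply (hc.pow_left k), hgp]
  have hfix' : ∀ k : ℕ, g ((f ^ k) (f p)) = (f ^ k) (f p) := by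
    intro k
    rw [← pow_apply_succ, hfix]
  have hzero : ∀ k : ℕ, ls g ((f ^ k) (f p)) ((f ^ k) p) = 0 := by
    intro k
    have h4 : ((f ^ k) (f p) : ℝ) < (f ^ k) p := Subtype.coe_lt_coe.2 ((f ^ k).strictMono hp)
    unfold ls
    rw [hfix, hfix', div_self (sub_pos.2 h4).ne', Real.log_one]
  obtain ⟨N, hN⟩ := exists_nat_gt W
  have h5 := hW (range N) (fun k => (f ^ k) (f p)) (fun k => (f ^ k) p) (fun k => (f ^ k) x)
    (fun k => (f ^ k) y) (fun k => (f ^ k) (f p)) (fun k => (f ^ k) p)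
    (fun i _ j _ hij => nonover hp.le i j hij)
    (fun i _ => ⟨(f ^ i).monotone h1, (f ^ i).strictMono h2, (f ^ i).monotone h3, le_rfl,
      (f ^ i).strictMono hp, le_rfl⟩)
  have h6 : (N : ℝ) ≤ ∑ i ∈ range N, |ls g ((f ^ i) x) ((f ^ i) y) -
      ls g ((f ^ i) (f p)) ((f ^ i) p)| := by
    have h7 : (N : ℝ) = ∑ _i ∈ range N, (1 : ℝ) := by simp
    rw [h7]
    apply Finset.sum_le_sum
    intro i _
    rw [hzero, sub_zero]
    exact (hcon i).le
  linarith

lemma core_aux {f g : unitInterval ≃o unitInterval} (hf : IsP f) (hg : g ∈ PP)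
    (hc : Commute f g) {p : unitInterval} (hp : f p < p) (hgp : g p = p) {x : unitInterval}
    (h1 : f p ≤ x) (h3 : x ≤ p) (hx : x < g x) : False := by
  obtain ⟨V, hV⟩ := hf
  have hpow : ∀ m : ℕ, (g ^ m) p = p := by
    intro m
    induction m with
    | zero => rw [pow_zero, RelIso.one_apply]
    | succ m ih => rw [pow_apply_succ, hgp, ih]
  have hgx : g x ≤ p := by
    rw [← hgp]
    exact g.monotone h3
  have hlow : ∀ m : ℕ, -(V + 1) ≤ ls (g ^ m) x (g x) := by
    intro m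
    have hcm : Commute f (g ^ m) := hc.pow_right m
    have hgm : IsP (g ^ m) := PP.pow_mem hg m
    obtain ⟨n, hn⟩ := small hgm hcm hp (hpow m) h1 hx hgx
    have e1 : ls ((f ^ n) * (g ^ m)) x (g x) =
        ls (f ^ n) ((g ^ m) x) ((g ^ m) (g x)) + ls (g ^ m) x (g x) := ls_mul _ _ hx
    have e2 : ls ((g ^ m) * (f ^ n)) x (g x) =
        ls (g ^ m) ((f ^ n) x) ((f ^ n) (g x)) + ls (f ^ n) x (g x) := ls_mul _ _ hx
    rw [(hcm.pow_left n).eq] at e1
    have hfp : ∀ k : ℕ, (g ^ k) (f p) = f p := by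
      intro k
      rw [← comm_apply (hc.pow_right k), hpow]
    have h4 : f p ≤ (g ^ m) x := by
      rw [← hfp m]
      exact (g ^ m).monotone h1
    have h5 : (g ^ m) (g x) ≤ p := by
      conv_rhs => rw [← hpow m]
      exact (g ^ m).monotone hgx
    have h6 := dist_pow hV hp.le n h1 hx hgx h4 ((g ^ m).strictMono hx) h5
    rw [abs_le] at hn h6
    linarith [hn.1, h6.1]
  have hx' : (0 : ℝ) < (g x : ℝ) - x := sub_pos.2 (Subtype.coe_lt_coe.2 hx)
  set δ : ℝ := Real.exp (-(V + 1)) * ((g x : ℝ) - x) with hδ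
  have hδ0 : 0 < δ := mul_pos (Real.exp_pos _) hx'
  have hstep : ∀ m : ℕ, δ ≤ ((g ^ (m + 1)) x : ℝ) - (g ^ m) x := by
    intro m
    have h4 := hlow m
    have h5 := quo_pos (g ^ m) hx
    unfold ls at h4
    rw [Real.le_log_iff_exp_le h5, le_div_iff₀ hx'] at h4
    rw [pow_apply_succ]
    exact h4
  have hsum : ∀ N : ℕ, (N : ℝ) * δ ≤ ((g ^ N) x : ℝ) - x := by
    intro N
    induction N with
    | zero => rw [pow_zero, RelIso.one_apply]; simp
    | succ N ih =>
      have h4 := hstep N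
      push_cast
      linarith
  obtain ⟨N, hN⟩ := exists_nat_gt (1 / δ)
  rw [div_lt_iff₀ hδ0] at hN
  have h4 := hsum N
  have h5 : ((g ^ N) x : ℝ) ≤ 1 := ((g ^ N) x).2.2
  have h6 : (0 : ℝ) ≤ x := x.2.1
  linarith

/-- **Kopell's lemma** for homeomorphisms of class `P` -/
theorem core {f g : unitInterval ≃o unitInterval} (hf : f ∈ PP) (hg : g ∈ PP)
    (hc : Commute f g) {p : unitInterval} (hp : f p < p) (hgp : g p = p) {x : unitInterval}
    (h1 : f p ≤ x) (h3 : x ≤ p) : g x = x := by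
  rcases lt_trichotomy x (g x) with h | h | h
  · exact (core_aux hf hg hc hp hgp h1 h3 h).elim
  · exact h.symm
  · exfalso
    have hgi : g⁻¹ p = p := by
      conv_lhs => rw [← hgp]
      exact RelIso.inv_apply_self g p
    apply core_aux hf (PP.inv_mem hg) hc.inv_right hp hgi h1 h3
    have h4 := g⁻¹.strictMono h
    rwa [RelIso.inv_apply_self] at h4

end Pool.Agent.Y72.Ko
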